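import Mathlib

set_option autoImplicit false

namespace Pool.Agent.H.MP_0aa80c_co

def sem (val : ℕ → ℝ) (l : ℕ) : Prop :=
  if l % 4 = 0 then 0 < val (l / 4) else if l % 4 = 1 then val (l / 4) ≤ 0
  else if l % 4 = 2 then val (l / 4) < 0 else 0 ≤ val (l / 4)

def ng (l : ℕ) : ℕ := l + 1 - 2 * (l % 2)

theorem sem_ng {val : ℕ → ℝ} {l : ℕ} (h : sem val l) : ¬ sem val (ng l) := by
  have h4 : l % 4 = 0 ∨ l % 4 = 1 ∨ l % 4 = 2 ∨ l % 4 = 3 := by omega
  have e : ng l / 4 = l / 4 := by unfold ng; omega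
  unfold sem at h ⊢
  rw [e]
  rcases h4 with h4 | h4 | h4 | h4
  · have : ng l % 4 = 1 := by unfold ng; omega
    simp [h4, this] at h ⊢; exact h
  · have : ng l % 4 = 0 := by unfold ng; omega
    simp [h4, this] at h ⊢; exact h
  · have : ng l % 4 = 3 := by unfold ng; omega
    simp [h4, this] at h ⊢; exact h
  · have : ng l % 4 = 2 := by unfold ng; omega
    simp [h4, this] at h ⊢; exact h

def mask : List ℕ → ℕ
  | [] => 0
  | l :: t => 2 ^ l ||| mask t

theorem mem_of_mask {c : List ℕ} {l : ℕ} (h : (mask c).testBit l = true) : l ∈ c := by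
  induction c with
  | nil => simp [mask] at h
  | cons a t ih =>
    simp only [mask, Nat.testBit_or, Bool.or_eq_true, Nat.testBit_two_pow, decide_eq_true_eq] at h
    rcases h with h | h
    · simp [h]
    · exact List.mem_cons_of_mem _ (ih h)

def Fal (val : ℕ → ℝ) (F : ℕ) : Prop := ∀ l, F.testBit l = true → ¬ sem val l

def holds (val : ℕ → ℝ) (c : List ℕ) : Prop := ∃ l ∈ c, sem val l

theorem Fal.or {val : ℕ → ℝ} {F G : ℕ} (h1 : Fal val F) (h2 : Fal val G) : Fal val (F ||| G) := by
  intro l hl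
  rw [Nat.testBit_or, Bool.or_eq_true] at hl
  exact hl.elim (h1 l) (h2 l)

theorem fal_mask {val : ℕ → ℝ} {c : List ℕ} (h : ¬ holds val c) : Fal val (mask c) :=
  fun l hl hs => h ⟨l, mem_of_mask hl, hs⟩

def rup (look : ℕ → List ℕ) (i : ℕ) : List ℕ → ℕ → Bool
  | [], _ => false
  | j :: hs, F => Nat.blt j i && match (look j).filter (fun l => !F.testBit l) with
    | [] => true
    | [l] => rup look i hs (F ||| 2 ^ ng l)
    | _ => false

theorem rup_sound {val : ℕ → ℝ} {look : ℕ → List ℕ} {i : ℕ} (H : ∀ j < i, holds val (look j)) :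
    ∀ (hs : List ℕ) (F : ℕ), Fal val F → rup look i hs F = true → False := by
  intro hs
  induction hs with
  | nil => intro F _ h; simp [rup] at h
  | cons j hs ih =>
    intro F hF h
    simp only [rup, Bool.and_eq_true, Nat.blt_eq] at h
    obtain ⟨hj, h⟩ := h
    obtain ⟨l, hl, hs'⟩ := H j hj
    have hm : l ∈ (look j).filter (fun l => !F.testBit l) := by
      rw [List.mem_filter]
      refine ⟨hl, ?_⟩
      cases e : F.testBit l
      · rfl
      · exact absurd hs' (hF l e)
    split at h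
    · rename_i e; rw [e] at hm; simp at hm
    · rename_i l' e
      rw [e] at hm
      have : l = l' := by simpa using hm
      subst this
      refine ih _ (hF.or ?_) h
      intro k hk
      rw [Nat.testBit_two_pow, decide_eq_true_eq] at hk
      subst hk
      exact sem_ng hs'
    · simp at h

def gt (F x : ℕ) : Bool := F.testBit (4 * x + 1)
def lt (F x : ℕ) : Bool := F.testBit (4 * x + 3)
def ge (F x : ℕ) : Bool := F.testBit (4 * x + 2) || gt F x
def le (F x : ℕ) : Bool := F.testBit (4 * x) || lt F x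

theorem gt_s {val : ℕ → ℝ} {F x : ℕ} (hF : Fal val F) (h : gt F x = true) : 0 < val x := by
  have := hF _ h
  have e1 : (4 * x + 1) % 4 = 1 := by omega
  have e2 : (4 * x + 1) / 4 = x := by omega
  simpa [sem, e1, e2] using this

theorem lt_s {val : ℕ → ℝ} {F x : ℕ} (hF : Fal val F) (h : lt F x = true) : val x < 0 := by
  have := hF _ h
  have e1 : (4 * x + 3) % 4 = 3 := by omega
  have e2 : (4 * x + 3) / 4 = x := by omega
  simpa [sem, e1, e2] using this

theorem ge_s {val : ℕ → ℝ} {F x : ℕ} (hF : Fal val F) (h : ge F x = true) : 0 ≤ val x := by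
  rw [ge, Bool.or_eq_true] at h
  rcases h with h | h
  · have := hF _ h
    have e1 : (4 * x + 2) % 4 = 2 := by omega
    have e2 : (4 * x + 2) / 4 = x := by omega
    simpa [sem, e1, e2] using this
  · exact (gt_s hF h).le

theorem le_s {val : ℕ → ℝ} {F x : ℕ} (hF : Fal val F) (h : le F x = true) : val x ≤ 0 := by
  rw [le, Bool.or_eq_true] at h
  rcases h with h | h
  · have := hF _ h
    have e1 : (4 * x) % 4 = 0 := by omega
    have e2 : (4 * x) / 4 = x := by omega
    simpa [sem, e1, e2] using this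
  · exact (lt_s hF h).le

def tge (F : ℕ) (t : Bool × ℕ × ℕ) : Bool :=
  (cond t.1 ((ge F t.2.1 && le F t.2.2) || (le F t.2.1 && ge F t.2.2))
    ((ge F t.2.1 && ge F t.2.2) || (le F t.2.1 && le F t.2.2)))
  || (ge F t.2.1 && le F t.2.1) || (ge F t.2.2 && le F t.2.2)

def tgt (F : ℕ) (t : Bool × ℕ × ℕ) : Bool :=
  cond t.1 ((gt F t.2.1 && lt F t.2.2) || (lt F t.2.1 && gt F t.2.2))
    ((gt F t.2.1 && gt F t.2.2) || (lt F t.2.1 && lt F t.2.2))

def sv (b : Bool) : ℝ := cond b (-1) 1

def tv (val : ℕ → ℝ) (t : Bool × ℕ × ℕ) : ℝ := sv t.1 * (val t.2.1 * val t.2.2)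

theorem tge_s {val : ℕ → ℝ} {F : ℕ} (hF : Fal val F) {t : Bool × ℕ × ℕ} (h : tge F t = true) :
    0 ≤ tv val t := by
  obtain ⟨s, x, y⟩ := t
  simp only [tge, Bool.or_eq_true, Bool.and_eq_true] at h
  rcases h with (h | h) | h
  · cases s
    · simp only [cond_false, Bool.or_eq_true, Bool.and_eq_true] at h
      simp only [tv, sv, cond_false, one_mul]
      rcases h with h | h
      · exact mul_nonneg (ge_s hF h.1) (ge_s hF h.2)
      · exact mul_nonneg_of_nonpos_of_nonpos (le_s hF h.1) (le_s hF h.2)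
    · simp only [cond_true, Bool.or_eq_true, Bool.and_eq_true] at h
      simp only [tv, sv, cond_true]
      rcases h with h | h
      · nlinarith [ge_s hF h.1, le_s hF h.2]
      · nlinarith [le_s hF h.1, ge_s hF h.2]
  · have : val x = 0 := le_antisymm (le_s hF h.2) (ge_s hF h.1)
    simp [tv, this]
  · have : val y = 0 := le_antisymm (le_s hF h.2) (ge_s hF h.1)
    simp [tv, this]

theorem tgt_s {val : ℕ → ℝ} {F : ℕ} (hF : Fal val F) {t : Bool × ℕ × ℕ} (h : tgt F t = true) :
    0 < tv val t := by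
  obtain ⟨s, x, y⟩ := t
  cases s
  · simp only [tgt, cond_false, Bool.or_eq_true, Bool.and_eq_true] at h
    simp only [tv, sv, cond_false, one_mul]
    rcases h with h | h
    · exact mul_pos (gt_s hF h.1) (gt_s hF h.2)
    · exact mul_pos_of_neg_of_neg (lt_s hF h.1) (lt_s hF h.2)
  · simp only [tgt, cond_true, Bool.or_eq_true, Bool.and_eq_true] at h
    simp only [tv, sv, cond_true]
    rcases h with h | h
    · nlinarith [gt_s hF h.1, lt_s hF h.2]
    · nlinarith [lt_s hF h.1, gt_s hF h.2]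

def viol1 (F : ℕ) (r : List (Bool × ℕ × ℕ)) : Bool := r.all (tge F) && r.any (tgt F)

def flp (t : Bool × ℕ × ℕ) : Bool × ℕ × ℕ := (!t.1, t.2)

def viol (F : ℕ) (r : List (Bool × ℕ × ℕ)) : Bool := viol1 F r || viol1 F (r.map flp)

theorem viol1_s {val : ℕ → ℝ} {F : ℕ} (hF : Fal val F) {r : List (Bool × ℕ × ℕ)}
    (h : viol1 F r = true) : 0 < (r.map (tv val)).sum := by
  simp only [viol1, Bool.and_eq_true, List.all_eq_true, List.any_eq_true] at h
  obtain ⟨h1, t, ht, h2⟩ := h
  have h3 : tv val t ≤ (r.map (tv val)).sum := by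
    apply List.single_le_sum
    · intro x hx
      obtain ⟨u, hu, rfl⟩ := List.mem_map.1 hx
      exact tge_s hF (h1 u hu)
    · exact List.mem_map_of_mem ht
  linarith [tgt_s hF h2]

theorem sum_flp (val : ℕ → ℝ) (r : List (Bool × ℕ × ℕ)) :
    ((r.map flp).map (tv val)).sum = -(r.map (tv val)).sum := by
  induction r with
  | nil => simp
  | cons t r ih =>
    simp only [List.map_cons, List.sum_cons, ih]
    obtain ⟨s, x, y⟩ := t
    cases s <;> simp [tv, flp, sv] <;> ring

theorem viol_s {val : ℕ → ℝ} {F : ℕ} (hF : Fal val F) {r : List (Bool × ℕ × ℕ)}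
    (h : viol F r = true) (h0 : (r.map (tv val)).sum = 0) : False := by
  rw [viol, Bool.or_eq_true] at h
  rcases h with h | h
  · linarith [viol1_s hF h]
  · have := viol1_s hF h
    rw [sum_flp] at this
    linarith

def Dv (a b c d : Fin 4 → ℝ) : ℝ :=
  (a 0 * b 1 - a 1 * b 0) * (c 2 * d 3 - c 3 * d 2) - (a 0 * b 2 - a 2 * b 0) * (c 1 * d 3 - c 3 * d 1)
  + (a 0 * b 3 - a 3 * b 0) * (c 1 * d 2 - c 2 * d 1) + (a 1 * b 2 - a 2 * b 1) * (c 0 * d 3 - c 3 * d 0)
  - (a 1 * b 3 - a 3 * b 1) * (c 0 * d 2 - c 2 * d 0) + (a 2 * b 3 - a 3 * b 2) * (c 0 * d 1 - c 1 * d 0)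

def dt (a b : Fin 4 → ℝ) : ℝ := a 0 * b 0 + a 1 * b 1 + a 2 * b 2 + a 3 * b 3

theorem cramer (a b c d e z : Fin 4 → ℝ) :
    Dv b c d e * dt a z - Dv a c d e * dt b z + Dv a b d e * dt c z - Dv a b c e * dt d z
      + Dv a b c d * dt e z = 0 := by
  unfold Dv dt; ring

theorem gp (a b c d e f : Fin 4 → ℝ) :
    Dv a b c d * Dv a b e f - Dv a b c e * Dv a b d f + Dv a b c f * Dv a b d e = 0 := by
  unfold Dv; ring

abbrev T4 := ℕ × ℕ × ℕ × ℕ

def tbl : ℕ := 1817119648849772398092510628042122996650315412492900321074616221624465620860250292173102354420769178533232783559612316898114923112908335927425203806447450687537035085671945221258404540913633710468939625174126979705770846113224123505573214844175521963900630044698819295522878902347551132550328339000714468244430631199431177812730560414449717292435935686221013209745486051347881886079542895513477024751587938056307145246477702397587024941217726277185218884123061918857250076242203770732313460611257003281752179803811256300602190772458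58049964120511431336469631238591091000809673763462381497879565932408312522946530578285054647755052057779703541081929392874539018542248576267524842833436140656158579833807366478747504447266213229105773942561031233455048997311635589290104906006393704651681580547237172911963434910963506194861415598893550530209916510215074468664508005443070354178815966038741845656056934216586332115207284580237785794690972655569920637425851820650634055998201550087244854523203015664287863159119352723192694064309408494384225342311221545418210480119357223517407898898664760010031996762851515548397846768700990034304950444964838291576565930435509268217628486727169659971151855625080259906101597595066102006661627835613668175067542595915235129335561205706951631156969041222449290215633168342866653459126290881110803460815948690980095782318904713127596694959918112781926385817750837611965751404699795122083827096854612795802808501792743114243821393403673107043301654172832697153888897420131334013526970669733241504009529339147710517850512623930507393567078781790039622732762591760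

def tup (x : ℕ) : T4 :=
  let y := (tbl >>> (16 * x)) % 65536
  (y % 16, y / 16 % 16, y / 256 % 16, y / 4096)

def Dt (w : ℕ → Fin 4 → ℝ) (t : T4) : ℝ := Dv (w t.1) (w t.2.1) (w t.2.2.1) (w t.2.2.2)

def val (w z : ℕ → Fin 4 → ℝ) (x : ℕ) : ℝ :=
  if x < 330 then Dt w (tup x) else dt (w ((x - 330) % 11)) (z ((x - 330) / 11))

def s1 (p : Bool × T4) : Bool × T4 :=
  cond (Nat.blt p.2.2.1 p.2.1) (!p.1, p.2.2.1, p.2.1, p.2.2.2) p
def s2 (p : Bool × T4) : Bool × T4 :=
  cond (Nat.blt p.2.2.2.1 p.2.2.1) (!p.1, p.2.1, p.2.2.2.1, p.2.2.1, p.2.2.2.2) p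
def s3 (p : Bool × T4) : Bool × T4 :=
  cond (Nat.blt p.2.2.2.2 p.2.2.2.1) (!p.1, p.2.1, p.2.2.1, p.2.2.2.2, p.2.2.2.1) p

def ev (w : ℕ → Fin 4 → ℝ) (p : Bool × T4) : ℝ := sv p.1 * Dt w p.2

theorem ev1 (w : ℕ → Fin 4 → ℝ) (p : Bool × T4) : ev w (s1 p) = ev w p := by
  obtain ⟨s, a, b, c, d⟩ := p
  unfold s1
  cases Nat.blt b a <;> cases s <;> simp [ev, sv, Dt, Dv] <;> ring
theorem ev2 (w : ℕ → Fin 4 → ℝ) (p : Bool × T4) : ev w (s2 p) = ev w p := by
  obtain ⟨s, a, b, c, d⟩ := p
  unfold s2
  cases Nat.blt c b <;> cases s <;> simp [ev, sv, Dt, Dv] <;> ring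
theorem ev3 (w : ℕ → Fin 4 → ℝ) (p : Bool × T4) : ev w (s3 p) = ev w p := by
  obtain ⟨s, a, b, c, d⟩ := p
  unfold s3
  cases Nat.blt d c <;> cases s <;> simp [ev, sv, Dt, Dv] <;> ring

def srt (t : T4) : Bool × T4 := s1 (s2 (s1 (s3 (s2 (s1 (false, t))))))

def eq4 (t u : T4) : Bool :=
  Nat.beq t.1 u.1 && Nat.beq t.2.1 u.2.1 && Nat.beq t.2.2.1 u.2.2.1 && Nat.beq t.2.2.2 u.2.2.2

theorem eq4_s {t u : T4} (h : eq4 t u = true) : t = u := by
  obtain ⟨a, b, c, d⟩ := t
  obtain ⟨a', b', c', d'⟩ := u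
  simp only [eq4, Bool.and_eq_true, Nat.beq_eq] at h
  obtain ⟨⟨⟨rfl, rfl⟩, rfl⟩, rfl⟩ := h
  rfl

def okt (x : ℕ) (t : T4) : Bool := Nat.blt x 330 && eq4 (tup x) t

theorem okt_s (w z : ℕ → Fin 4 → ℝ) {x : ℕ} {t : T4} (h : okt x t = true) :
    val w z x = Dt w t := by
  simp only [okt, Bool.and_eq_true, Nat.blt_eq] at h
  rw [val, if_pos h.1, eq4_s h.2]

theorem okd_s (w z : ℕ → Fin 4 → ℝ) {x : ℕ} {t : T4} (h : okt x (srt t).2 = true) :
    Dt w t = sv (srt t).1 * val w z x := by
  rw [okt_s w z h]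
  have : ev w (srt t) = ev w (false, t) := by
    unfold srt; rw [ev1, ev2, ev1, ev3, ev2, ev1]
  unfold ev at this
  rw [this]; simp [sv]

theorem val_e (w z : ℕ → Fin 4 → ℝ) (q : ℕ) {s : ℕ} (h : s < 11) :
    val w z (330 + 11 * q + s) = dt (w s) (z q) := by
  have e1 : (330 + 11 * q + s - 330) % 11 = s := by omega
  have e2 : (330 + 11 * q + s - 330) / 11 = q := by omega
  rw [val, if_neg (by omega), e1, e2]

inductive J
  | x (x : ℕ)
  | ci (k : ℕ)
  | cr (q a b c d e x0 x1 x2 x3 x4 : ℕ)
  | gp (a b c d e f x1 y1 x2 y2 x3 y3 : ℕ)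
  | ru (hs : List ℕ)

def just (look : ℕ → List ℕ) (K0 : ℕ) (star : ℕ → List (Bool × ℕ)) (i : ℕ) : J → Bool
  | .x x => gt (mask (look i)) x && lt (mask (look i)) x
  | .ci k => (star k).any (fun p => cond p.1 (ge (mask (look i)) p.2) (le (mask (look i)) p.2)) &&
      (star k).any (fun p => cond p.1 (le (mask (look i)) p.2) (ge (mask (look i)) p.2))
  | .cr q a b c d e x0 x1 x2 x3 x4 =>
      okt x0 (b, c, d, e) && okt x1 (a, c, d, e) && okt x2 (a, b, d, e) && okt x3 (a, b, c, e) &&
      okt x4 (a, b, c, d) && Nat.blt a 11 && Nat.blt b 11 && Nat.blt c 11 && Nat.blt d 11 &&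
      Nat.blt e 11 && viol (mask (look i) ||| K0)
        [(false, x0, 330 + 11 * q + a), (true, x1, 330 + 11 * q + b), (false, x2, 330 + 11 * q + c),
          (true, x3, 330 + 11 * q + d), (false, x4, 330 + 11 * q + e)]
  | .gp a b c d e f x1 y1 x2 y2 x3 y3 =>
      okt x1 (srt (a, b, c, d)).2 && okt y1 (srt (a, b, e, f)).2 && okt x2 (srt (a, b, c, e)).2 &&
      okt y2 (srt (a, b, d, f)).2 && okt x3 (srt (a, b, c, f)).2 && okt y3 (srt (a, b, d, e)).2 &&
      viol (mask (look i))
        [(xor (srt (a, b, c, d)).1 (srt (a, b, e, f)).1, x1, y1),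
          (!(xor (srt (a, b, c, e)).1 (srt (a, b, d, f)).1), x2, y2),
          (xor (srt (a, b, c, f)).1 (srt (a, b, d, e)).1, x3, y3)]
  | .ru hs => rup look i hs (mask (look i))

theorem sv_xor (a b : Bool) : sv (xor a b) = sv a * sv b := by cases a <;> cases b <;> simp [sv]
theorem sv_not (a : Bool) : sv (!a) = - sv a := by cases a <;> simp [sv]

theorem just_s {w z : ℕ → Fin 4 → ℝ} {look : ℕ → List ℕ} {K0 : ℕ} {star : ℕ → List (Bool × ℕ)}
    (hK : Fal (val w z) K0)
    (hs : ∀ k, (∀ p ∈ star k, 0 < sv p.1 * val w z p.2) ∨ (∀ p ∈ star k, sv p.1 * val w z p.2 < 0))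
    {i : ℕ} (H : ∀ j < i, holds (val w z) (look j)) {j : J} (h : just look K0 star i j = true) :
    holds (val w z) (look i) := by
  by_contra hn
  have hF := fal_mask hn
  cases j with
  | x x =>
    simp only [just, Bool.and_eq_true] at h
    linarith [gt_s hF h.1, lt_s hF h.2]
  | ci k =>
    simp only [just, Bool.and_eq_true, List.any_eq_true] at h
    obtain ⟨⟨⟨s, x⟩, hp, h1⟩, ⟨⟨s', x'⟩, hp', h2⟩⟩ := h
    rcases hs k with h | h
    · have := h _ hp
      cases s
      · simp only [sv, cond_false] at this h1; linarith [le_s hF h1]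
      · simp only [sv, cond_true] at this h1; linarith [ge_s hF h1]
    · have := h _ hp'
      cases s'
      · simp only [sv, cond_false] at this h2; linarith [ge_s hF h2]
      · simp only [sv, cond_true] at this h2; linarith [le_s hF h2]
  | cr q a b c d e x0 x1 x2 x3 x4 =>
    simp only [just, Bool.and_eq_true, Nat.blt_eq] at h
    obtain ⟨⟨⟨⟨⟨⟨⟨⟨⟨⟨h0, h1⟩, h2⟩, h3⟩, h4⟩, ha⟩, hb⟩, hc⟩, hd⟩, he⟩, hv⟩ := h
    refine viol_s (hF.or hK) hv ?_
    simp only [List.map_cons, List.map_nil, List.sum_cons, List.sum_nil, tv, sv, cond_true,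
      cond_false, okt_s w z h0, okt_s w z h1, okt_s w z h2, okt_s w z h3, okt_s w z h4,
      val_e w z q ha, val_e w z q hb, val_e w z q hc, val_e w z q hd, val_e w z q he, Dt]
    linear_combination cramer (w a) (w b) (w c) (w d) (w e) (z q)
  | gp a b c d e f x1 y1 x2 y2 x3 y3 =>
    simp only [just, Bool.and_eq_true] at h
    obtain ⟨⟨⟨⟨⟨⟨h0, h1⟩, h2⟩, h3⟩, h4⟩, h5⟩, hv⟩ := h
    refine viol_s hF hv ?_
    have g : Dt w (a, b, c, d) * Dt w (a, b, e, f) - Dt w (a, b, c, e) * Dt w (a, b, d, f)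
      + Dt w (a, b, c, f) * Dt w (a, b, d, e) = 0 := gp (w a) (w b) (w c) (w d) (w e) (w f)
    rw [okd_s w z h0, okd_s w z h1, okd_s w z h2, okd_s w z h3, okd_s w z h4, okd_s w z h5] at g
    simp only [List.map_cons, List.map_nil, List.sum_cons, List.sum_nil, tv, sv_xor, sv_not]
    linear_combination g
  | ru hs => exact rup_sound H hs _ hF h

def chk (look : ℕ → List ℕ) (K0 : ℕ) (star : ℕ → List (Bool × ℕ)) : List J → ℕ → Bool
  | [], _ => true
  | j :: js, i => just look K0 star i j && chk look K0 star js (i + 1)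

theorem chk_s {w z : ℕ → Fin 4 → ℝ} {look : ℕ → List ℕ} {K0 : ℕ} {star : ℕ → List (Bool × ℕ)}
    (hK : Fal (val w z) K0)
    (hs : ∀ k, (∀ p ∈ star k, 0 < sv p.1 * val w z p.2) ∨ (∀ p ∈ star k, sv p.1 * val w z p.2 < 0)) :
    ∀ (js : List J) (i : ℕ), (∀ j < i, holds (val w z) (look j)) → chk look K0 star js i = true →
      ∀ j < i + js.length, holds (val w z) (look j) := by
  intro js
  induction js with
  | nil => intro i H _; simpa using H
  | cons j js ih =>
    intro i H h
    simp only [chk, Bool.and_eq_true] at h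
    have h1 := just_s hK hs H h.1
    have := ih (i + 1) (fun k hk => by
      rcases Nat.lt_succ_iff_lt_or_eq.1 hk with e | e
      · exact H k e
      · rw [e]; exact h1) h.2
    intro k hk
    exact this k (by simp only [List.length_cons] at hk; omega)

inductive Tr
  | lf (c : List ℕ)
  | nd (l r : Tr)

def Tr.look : Tr → ℕ → List ℕ
  | .lf c, _ => c
  | .nd l r, i => cond (Nat.beq (i % 2) 0) (l.look (i / 2)) (r.look (i / 2))

end Pool.Agent.H.MP_0aa80c_co
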