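import Pool.Agent.H.MP_0aa80c_co.CkA
import Pool.Agent.H.MP_0aa80c_co.CkB
import Pool.Agent.H.MP_0aa80c_co.CkC

set_option autoImplicit false

namespace Pool.Agent.H.MP_0aa80c_co

theorem core {w z : ℕ → Fin 4 → ℝ} (hK : Fal (val w z) K0)
    (hs : ∀ k, (∀ p ∈ star k, 0 < sv p.1 * val w z p.2) ∨ (∀ p ∈ star k, sv p.1 * val w z p.2 < 0)) :
    False := by
  have h0 : ∀ j < 0, holds (val w z) (tr.look j) := fun j hj => absurd hj (Nat.not_lt_zero j)
  have h1 := chk_s hK hs js0 0 h0 ck0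
  rw [ln0] at h1
  have h2 := chk_s hK hs js1 159 h1 ck1
  rw [ln1] at h2
  have h3 := chk_s hK hs js2 318 h2 ck2
  rw [ln2] at h3
  have h4 := chk_s hK hs js3 477 h3 ck3
  rw [ln3] at h4
  have h5 := chk_s hK hs js4 636 h4 ck4
  rw [ln4] at h5
  have h6 := chk_s hK hs js5 795 h5 ck5
  rw [ln5] at h6
  have h7 := chk_s hK hs js6 954 h6 ck6
  rw [ln6] at h7
  have h8 := chk_s hK hs js7 1106 h7 ck7
  rw [ln7] at h8
  have h9 := chk_s hK hs js8 1187 h8 ck8
  rw [ln8] at h9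
  have h10 := chk_s hK hs js9 1257 h9 ck9
  rw [ln9] at h10
  have h11 := chk_s hK hs js10 1315 h10 ck10
  rw [ln10] at h11
  have h12 := chk_s hK hs js11 1388 h11 ck11
  rw [ln11] at h12
  have e : tr.look 1475 = [] := by decide +kernel
  have := h12 1475 (by norm_num)
  rw [e] at this
  obtain ⟨l, hl, _⟩ := this
  simp at hl

end Pool.Agent.H.MP_0aa80c_co
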