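import Pool.Agent.H.MP_0aa80c_co.Core

set_option autoImplicit false
open Set

namespace Pool.Agent.H.MP_0aa80c_co

abbrev E := EuclideanSpace ℝ (Fin 3)

def lin (G : Fin 4 → ℝ) (v : E) : ℝ := G 0 * v 0 + G 1 * v 1 + G 2 * v 2

def ap (G : Fin 4 → ℝ) (x : E) : ℝ := lin G x + G 3

theorem ap_add (G : Fin 4 → ℝ) (x v : E) (t : ℝ) : ap G (x + t • v) = ap G x + t * lin G v := by
  simp [ap, lin]; ring

theorem ap_neg (G : Fin 4 → ℝ) (x : E) : ap (-G) x = - ap G x := by simp [ap, lin]; ring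

theorem lin_negv (G : Fin 4 → ℝ) (v : E) : lin G (-v) = - lin G v := by simp [lin]; ring

theorem sepG {A B : Set E} (a1 : Convex ℝ A) (a2 : IsOpen A) (b1 : Convex ℝ B) (b2 : IsOpen B)
    (h : Disjoint A B) : ∃ G : Fin 4 → ℝ, (∀ x ∈ A, ap G x < 0) ∧ ∀ x ∈ B, 0 < ap G x := by
  obtain ⟨f, u, h1, h2⟩ := geometric_hahn_banach_open_open a1 a2 b1 b2 h
  have e : ∀ x : E, ap ![f (EuclideanSpace.single 0 1), f (EuclideanSpace.single 1 1),
      f (EuclideanSpace.single 2 1), -u] x = f x - u := by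
    intro x
    have e : x = x 0 • EuclideanSpace.single 0 (1:ℝ) + x 1 • EuclideanSpace.single 1 (1:ℝ)
        + x 2 • EuclideanSpace.single 2 (1:ℝ) := by
      ext i; fin_cases i <;> simp
    have e2 : f x = x 0 * f (EuclideanSpace.single 0 1) + x 1 * f (EuclideanSpace.single 1 1)
        + x 2 * f (EuclideanSpace.single 2 1) := by
      conv_lhs => rw [e]
      simp only [map_add, map_smul, smul_eq_mul]
    rw [e2]
    simp [ap, lin]; ring
  exact ⟨_, fun x hx => by rw [e]; linarith [h1 x hx], fun x hx => by rw [e]; linarith [h2 x hx]⟩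

theorem ker3 (a b c : Fin 4 → ℝ)
    (h : a 0 * (b 1 * c 2 - b 2 * c 1) - a 1 * (b 0 * c 2 - b 2 * c 0)
      + a 2 * (b 0 * c 1 - b 1 * c 0) = 0) :
    ∃ v : E, v ≠ 0 ∧ lin a v = 0 ∧ lin b v = 0 ∧ lin c v = 0 := by
  have hd : (!![a 0, a 1, a 2; b 0, b 1, b 2; c 0, c 1, c 2] : Matrix (Fin 3) (Fin 3) ℝ).det = 0 := by
    rw [Matrix.det_fin_three]; simp; linear_combination h
  obtain ⟨v, hv, e⟩ := Matrix.exists_mulVec_eq_zero_iff.2 hd
  have e0 := congrFun e 0
  have e1 := congrFun e 1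
  have e2 := congrFun e 2
  simp [Matrix.mulVec, dotProduct, Fin.sum_univ_three] at e0 e1 e2
  refine ⟨WithLp.toLp 2 v, ?_, e0, e1, e2⟩
  intro h0
  apply hv
  funext i
  exact congrArg (fun y : E => y i) h0

theorem dir3 (a b c : Fin 4 → ℝ) : ∃ v : E, v ≠ 0 ∧ lin a v ≤ 0 ∧ lin b v ≤ 0 ∧ lin c v ≤ 0 := by
  obtain ⟨v, hv, h1, h2, -⟩ := ker3 a b 0 (by simp)
  rcases le_total (lin c v) 0 with h | h
  · exact ⟨v, hv, h1.le, h2.le, h⟩
  · refine ⟨-v, neg_ne_zero.2 hv, ?_, ?_, ?_⟩ <;> rw [lin_negv] <;> linarith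

def e4 : Fin 4 → ℝ := ![0, 0, 0, 1]

noncomputable def crs (c d : Fin 4 → ℝ) : E :=
  WithLp.toLp 2 ![c 1 * d 2 - c 2 * d 1, c 2 * d 0 - c 0 * d 2, c 0 * d 1 - c 1 * d 0]

theorem opp {a b c d : Fin 4 → ℝ}
    (N : ∀ v : E, lin a v ≤ 0 → lin b v ≤ 0 → lin c v ≤ 0 → lin d v ≤ 0 → v = 0) :
    (0 < Dv b c d e4 → Dv a c d e4 < 0) ∧ (Dv b c d e4 < 0 → 0 < Dv a c d e4) := by
  have h1 : lin a (crs c d) = Dv a c d e4 := by simp [lin, crs, Dv, e4]; ring
  have h2 : lin b (crs c d) = Dv b c d e4 := by simp [lin, crs, Dv, e4]; ring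
  have h3 : lin c (crs c d) = 0 := by simp [lin, crs]; ring
  have h4 : lin d (crs c d) = 0 := by simp [lin, crs]; ring
  constructor
  · intro h
    by_contra hn
    push Not at hn
    have := N (-crs c d) (by rw [lin_negv]; linarith) (by rw [lin_negv]; linarith)
      (by rw [lin_negv]; linarith) (by rw [lin_negv]; linarith)
    rw [neg_eq_zero] at this
    rw [this] at h2
    simp [lin] at h2
    linarith
  · intro h
    by_contra hn
    push Not at hn
    have := N (crs c d) (by linarith) (by linarith) h3.le h4.le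
    rw [this] at h2
    simp [lin] at h2
    linarith

theorem pos4 {a b c d : Fin 4 → ℝ}
    (N : ∀ v : E, lin a v ≤ 0 → lin b v ≤ 0 → lin c v ≤ 0 → lin d v ≤ 0 → v = 0)
    (p : E) (ha : ap a p < 0) (hb : ap b p < 0) (hc : ap c p < 0) (hd : ap d p < 0) :
    (0 < Dv b c d e4 ∧ Dv a c d e4 < 0 ∧ 0 < Dv a b d e4 ∧ Dv a b c e4 < 0 ∧ 0 < Dv a b c d) ∨
    (Dv b c d e4 < 0 ∧ 0 < Dv a c d e4 ∧ Dv a b d e4 < 0 ∧ 0 < Dv a b c e4 ∧ Dv a b c d < 0) := by
  have o1 := opp N
  have q2 := opp (a := a) (b := c) (c := b) (d := d) (fun v h1 h2 h3 h4 => N v h1 h3 h2 h4)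
  have q3 := opp (a := a) (b := d) (c := b) (d := c) (fun v h1 h2 h3 h4 => N v h1 h3 h4 h2)
  have r2 : Dv c b d e4 = - Dv b c d e4 := by simp only [Dv]; ring
  have r3 : Dv d b c e4 = Dv b c d e4 := by simp only [Dv]; ring
  rw [r2] at q2
  rw [r3] at q3
  have cr := cramer a b c d e4 ![p 0, p 1, p 2, 1]
  have ea : ∀ G, dt G ![p 0, p 1, p 2, 1] = ap G p := by intro G; simp [dt, ap, lin]
  have ee : ap e4 p = 1 := by simp [ap, lin, e4]
  rw [ea, ea, ea, ea, ea, ee] at cr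
  rcases lt_trichotomy (Dv b c d e4) 0 with h | h | h
  · right
    have k1 := o1.2 h
    have k2 := q2.1 (by linarith)
    have k3 := q3.2 h
    refine ⟨h, k1, k2, k3, ?_⟩
    nlinarith [mul_pos_of_neg_of_neg h ha, mul_pos k1 (neg_pos.2 hb), mul_pos_of_neg_of_neg k2 hc,
      mul_pos k3 (neg_pos.2 hd)]
  · exfalso
    obtain ⟨v, hv, h1, h2, h3⟩ := ker3 b c d (by simp [Dv, e4] at h; linear_combination h)
    rcases le_total (lin a v) 0 with k | k
    · exact hv (N v k h1.le h2.le h3.le)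
    · exact hv (neg_eq_zero.1 (N (-v) (by rw [lin_negv]; linarith) (by rw [lin_negv]; linarith)
        (by rw [lin_negv]; linarith) (by rw [lin_negv]; linarith)))
  · left
    have k1 := o1.1 h
    have k2 := q2.2 (by linarith)
    have k3 := q3.1 h
    refine ⟨h, k1, k2, k3, ?_⟩
    nlinarith [mul_pos h (neg_pos.2 ha), mul_pos_of_neg_of_neg k1 hb, mul_pos k2 (neg_pos.2 hc),
      mul_pos_of_neg_of_neg k3 hd]

theorem n1 (a b c d : Fin 4 → ℝ) : Dv (-a) b c d = - Dv a b c d := by simp [Dv]; ring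
theorem n2 (a b c d : Fin 4 → ℝ) : Dv a (-b) c d = - Dv a b c d := by simp [Dv]; ring
theorem n3 (a b c d : Fin 4 → ℝ) : Dv a b (-c) d = - Dv a b c d := by simp [Dv]; ring
theorem n4 (a b c d : Fin 4 → ℝ) : Dv a b c (-d) = - Dv a b c d := by simp [Dv]; ring

theorem ns0 {val : ℕ → ℝ} {x : ℕ} (h : val x ≤ 0) : ¬ sem val (4 * x) := by
  have e1 : (4 * x) % 4 = 0 := by omega
  have e2 : (4 * x) / 4 = x := by omega
  simpa [sem, e1, e2] using h
theorem ns1 {val : ℕ → ℝ} {x : ℕ} (h : 0 < val x) : ¬ sem val (4 * x + 1) := by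
  have e1 : (4 * x + 1) % 4 = 1 := by omega
  have e2 : (4 * x + 1) / 4 = x := by omega
  simpa [sem, e1, e2] using h
theorem ns2 {val : ℕ → ℝ} {x : ℕ} (h : 0 ≤ val x) : ¬ sem val (4 * x + 2) := by
  have e1 : (4 * x + 2) % 4 = 2 := by omega
  have e2 : (4 * x + 2) / 4 = x := by omega
  simpa [sem, e1, e2] using h
theorem ns3 {val : ℕ → ℝ} {x : ℕ} (h : val x < 0) : ¬ sem val (4 * x + 3) := by
  have e1 : (4 * x + 3) % 4 = 3 := by omega
  have e2 : (4 * x + 3) / 4 = x := by omega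
  simpa [sem, e1, e2] using h

def f1 (a : ℕ) : Fin 5 := Fin.ofNat 5 (p1 a)
def f2 (a : ℕ) : Fin 5 := Fin.ofNat 5 (p2 a)

theorem alg (G : Fin 5 → Fin 5 → Fin 4 → ℝ) (hG : ∀ i j, i ≠ j → G j i = - G i j)
    (N : ∀ i (v : E), (∀ j, j ≠ i → lin (G i j) v ≤ 0) → v = 0)
    (P : ∀ i, ∃ p : E, ∀ j, j ≠ i → ap (G i j) p < 0)
    (Z : ∀ i j, i ≠ j → ∃ z : E, ap (G i j) z = 0 ∧
      ∀ k, k ≠ i → k ≠ j → ap (G i k) z < 0 ∧ ap (G j k) z < 0) : False := by
  choose! z hz0 hz using Z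
  let w : ℕ → Fin 4 → ℝ := fun a => if a = 10 then e4 else G (f1 a) (f2 a)
  let y : ℕ → Fin 4 → ℝ := fun q => ![z (f1 q) (f2 q) 0, z (f1 q) (f2 q) 1, z (f1 q) (f2 q) 2, 1]
  have ea : ∀ H q, dt H (y q) = ap H (z (f1 q) (f2 q)) := by intro H q; simp [y, dt, ap, lin]
  choose p hp using P
  have S := fun (i j k l m : Fin 5) (h : ∀ r, r ≠ i → r = j ∨ r = k ∨ r = l ∨ r = m) (hj : j ≠ i)
    (hk : k ≠ i) (hl : l ≠ i) (hm : m ≠ i) =>
    pos4 (a := G i j) (b := G i k) (c := G i l) (d := G i m)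
      (fun v h1 h2 h3 h4 => N i v fun r hr => by
        rcases h r hr with rfl | rfl | rfl | rfl <;> assumption)
      (p i) (hp i _ hj) (hp i _ hk) (hp i _ hl) (hp i _ hm)
  refine core (w := w) (z := y) ?_ ?_
  · rw [K0_eq]
    intro l hl
    have hm := mem_of_mask hl
    simp only [KL, List.mem_flatMap, List.mem_range] at hm
    obtain ⟨q, hq, a, ha, hm⟩ := hm
    have ev := val_e w y q ha
    rw [ea] at ev
    have d1 : ∀ q < 10, f1 q ≠ f2 q := by decide
    have d2 : ∀ q < 10, ∀ a < 10, a ≠ q → (p1 a = p1 q ∨ p1 a = p2 q) →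
        (f1 a = f1 q ∨ f1 a = f2 q) ∧ f2 a ≠ f1 q ∧ f2 a ≠ f2 q := by
      intro q hq a ha; interval_cases q <;> interval_cases a <;> decide
    have d3 : ∀ q < 10, ∀ a < 10, ¬ (p1 a = p1 q ∨ p1 a = p2 q) → (p2 a = p1 q ∨ p2 a = p2 q) →
        (f2 a = f1 q ∨ f2 a = f2 q) ∧ f1 a ≠ f1 q ∧ f1 a ≠ f2 q := by
      intro q hq a ha; interval_cases q <;> interval_cases a <;> decide
    unfold lits at hm
    generalize 330 + 11 * q + a = x at ev hm
    have hq' := d1 q hq
    split_ifs at hm with c1 c2 c3 c4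
    · rw [List.mem_singleton.1 hm]
      apply ns1
      rw [ev]; simp [w, c1, ap, lin, e4]
    · have : val w y x = 0 := by
        rw [ev]; simp only [w, if_neg c1]; rw [c2]; exact hz0 _ _ hq'
      simp only [List.mem_cons, List.not_mem_nil, or_false] at hm
      rcases hm with rfl | rfl
      · exact ns0 this.le
      · exact ns2 this.ge
    · rw [List.mem_singleton.1 hm]
      apply ns3
      obtain ⟨k1, k2, k3⟩ := d2 q hq a (by omega) c2 c3
      rw [ev]; simp only [w, if_neg c1]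
      rcases k1 with k1 | k1 <;> rw [k1]
      · exact (hz _ _ hq' _ k2 k3).1
      · exact (hz _ _ hq' _ k2 k3).2
    · rw [List.mem_singleton.1 hm]
      apply ns1
      obtain ⟨k1, k2, k3⟩ := d3 q hq a (by omega) c3 c4
      rw [ev]; simp only [w, if_neg c1]
      rw [hG _ _ (d1 a (by omega)).symm, ap_neg]
      rcases k1 with k1 | k1 <;> rw [k1]
      · linarith [(hz _ _ hq' _ k2 k3).1]
      · linarith [(hz _ _ hq' _ k2 k3).2]
    · simp at hm
  · intro k
    match k with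
    | 0 =>
      have v0 : val w y 126 = Dv (G 0 2) (G 0 3) (G 0 4) e4 :=
        okt_s w y (t := (1, 2, 3, 10)) (by decide +kernel)
      have v1 : val w y 42 = Dv (G 0 1) (G 0 3) (G 0 4) e4 :=
        okt_s w y (t := (0, 2, 3, 10)) (by decide +kernel)
      have v2 : val w y 14 = Dv (G 0 1) (G 0 2) (G 0 4) e4 :=
        okt_s w y (t := (0, 1, 3, 10)) (by decide +kernel)
      have v3 : val w y 7 = Dv (G 0 1) (G 0 2) (G 0 3) e4 :=
        okt_s w y (t := (0, 1, 2, 10)) (by decide +kernel)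
      have v4 : val w y 0 = Dv (G 0 1) (G 0 2) (G 0 3) (G 0 4) :=
        okt_s w y (t := (0, 1, 2, 3)) (by decide +kernel)
      have h := S 0 1 2 3 4 (by decide) (by decide) (by decide) (by decide) (by decide)
      simp only [star, List.forall_mem_cons, List.not_mem_nil, sv, cond_true, cond_false, v0, v1, v2,
        v3, v4]
      rcases h with ⟨a, b, c, d, e⟩ | ⟨a, b, c, d, e⟩
      · left; refine ⟨?_, ?_, ?_, ?_, ?_, ?_⟩ <;> first | linarith | simp
      · right; refine ⟨?_, ?_, ?_, ?_, ?_, ?_⟩ <;> first | linarith | simp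
    | 1 =>
      have v0 : val w y 298 = Dv (G 1 2) (G 1 3) (G 1 4) e4 :=
        okt_s w y (t := (4, 5, 6, 10)) (by decide +kernel)
      have v1 : val w y 103 = Dv (G 0 1) (G 1 3) (G 1 4) e4 :=
        okt_s w y (t := (0, 5, 6, 10)) (by decide +kernel)
      have v2 : val w y 93 = Dv (G 0 1) (G 1 2) (G 1 4) e4 :=
        okt_s w y (t := (0, 4, 6, 10)) (by decide +kernel)
      have v3 : val w y 89 = Dv (G 0 1) (G 1 2) (G 1 3) e4 :=
        okt_s w y (t := (0, 4, 5, 10)) (by decide +kernel)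
      have v4 : val w y 85 = Dv (G 0 1) (G 1 2) (G 1 3) (G 1 4) :=
        okt_s w y (t := (0, 4, 5, 6)) (by decide +kernel)
      have h := S 1 0 2 3 4 (by decide) (by decide) (by decide) (by decide) (by decide)
      rw [hG 0 1 (by decide)] at h
      simp only [n1, n2, n3, n4] at h
      simp only [star, List.forall_mem_cons, List.not_mem_nil, sv, cond_true, cond_false, v0, v1, v2,
        v3, v4]
      rcases h with ⟨a, b, c, d, e⟩ | ⟨a, b, c, d, e⟩
      · right; refine ⟨?_, ?_, ?_, ?_, ?_, ?_⟩ <;> first | linarith | simp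
      · left; refine ⟨?_, ?_, ?_, ?_, ?_, ?_⟩ <;> first | linarith | simp
    | 2 =>
      have v0 : val w y 312 = Dv (G 1 2) (G 2 3) (G 2 4) e4 :=
        okt_s w y (t := (4, 7, 8, 10)) (by decide +kernel)
      have v1 : val w y 201 = Dv (G 0 2) (G 2 3) (G 2 4) e4 :=
        okt_s w y (t := (1, 7, 8, 10)) (by decide +kernel)
      have v2 : val w y 182 = Dv (G 0 2) (G 1 2) (G 2 4) e4 :=
        okt_s w y (t := (1, 4, 8, 10)) (by decide +kernel)
      have v3 : val w y 180 = Dv (G 0 2) (G 1 2) (G 2 3) e4 :=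
        okt_s w y (t := (1, 4, 7, 10)) (by decide +kernel)
      have v4 : val w y 178 = Dv (G 0 2) (G 1 2) (G 2 3) (G 2 4) :=
        okt_s w y (t := (1, 4, 7, 8)) (by decide +kernel)
      have h := S 2 0 1 3 4 (by decide) (by decide) (by decide) (by decide) (by decide)
      rw [hG 0 2 (by decide), hG 1 2 (by decide)] at h
      simp only [n1, n2, n3, n4] at h
      simp only [star, List.forall_mem_cons, List.not_mem_nil, sv, cond_true, cond_false, v0, v1, v2,
        v3, v4]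
      rcases h with ⟨a, b, c, d, e⟩ | ⟨a, b, c, d, e⟩
      · left; refine ⟨?_, ?_, ?_, ?_, ?_, ?_⟩ <;> first | linarith | simp
      · right; refine ⟨?_, ?_, ?_, ?_, ?_, ?_⟩ <;> first | linarith | simp
    | 3 =>
      have v0 : val w y 323 = Dv (G 1 3) (G 2 3) (G 3 4) e4 :=
        okt_s w y (t := (5, 7, 9, 10)) (by decide +kernel)
      have v1 : val w y 258 = Dv (G 0 3) (G 2 3) (G 3 4) e4 :=
        okt_s w y (t := (2, 7, 9, 10)) (by decide +kernel)
      have v2 : val w y 249 = Dv (G 0 3) (G 1 3) (G 3 4) e4 :=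
        okt_s w y (t := (2, 5, 9, 10)) (by decide +kernel)
      have v3 : val w y 246 = Dv (G 0 3) (G 1 3) (G 2 3) e4 :=
        okt_s w y (t := (2, 5, 7, 10)) (by decide +kernel)
      have v4 : val w y 245 = Dv (G 0 3) (G 1 3) (G 2 3) (G 3 4) :=
        okt_s w y (t := (2, 5, 7, 9)) (by decide +kernel)
      have h := S 3 0 1 2 4 (by decide) (by decide) (by decide) (by decide) (by decide)
      rw [hG 0 3 (by decide), hG 1 3 (by decide), hG 2 3 (by decide)] at h
      simp only [n1, n2, n3, n4] at h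
      simp only [star, List.forall_mem_cons, List.not_mem_nil, sv, cond_true, cond_false, v0, v1, v2,
        v3, v4]
      rcases h with ⟨a, b, c, d, e⟩ | ⟨a, b, c, d, e⟩
      · right; refine ⟨?_, ?_, ?_, ?_, ?_, ?_⟩ <;> first | linarith | simp
      · left; refine ⟨?_, ?_, ?_, ?_, ?_, ?_⟩ <;> first | linarith | simp
    | 4 =>
      have v0 : val w y 328 = Dv (G 1 4) (G 2 4) (G 3 4) e4 :=
        okt_s w y (t := (6, 8, 9, 10)) (by decide +kernel)
      have v1 : val w y 294 = Dv (G 0 4) (G 2 4) (G 3 4) e4 :=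
        okt_s w y (t := (3, 8, 9, 10)) (by decide +kernel)
      have v2 : val w y 290 = Dv (G 0 4) (G 1 4) (G 3 4) e4 :=
        okt_s w y (t := (3, 6, 9, 10)) (by decide +kernel)
      have v3 : val w y 289 = Dv (G 0 4) (G 1 4) (G 2 4) e4 :=
        okt_s w y (t := (3, 6, 8, 10)) (by decide +kernel)
      have v4 : val w y 288 = Dv (G 0 4) (G 1 4) (G 2 4) (G 3 4) :=
        okt_s w y (t := (3, 6, 8, 9)) (by decide +kernel)
      have h := S 4 0 1 2 3 (by decide) (by decide) (by decide) (by decide) (by decide)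
      rw [hG 0 4 (by decide), hG 1 4 (by decide), hG 2 4 (by decide), hG 3 4 (by decide)] at h
      simp only [n1, n2, n3, n4] at h
      simp only [star, List.forall_mem_cons, List.not_mem_nil, sv, cond_true, cond_false, v0, v1, v2,
        v3, v4]
      rcases h with ⟨a, b, c, d, e⟩ | ⟨a, b, c, d, e⟩
      · left; refine ⟨?_, ?_, ?_, ?_, ?_, ?_⟩ <;> first | linarith | simp
      · right; refine ⟨?_, ?_, ?_, ?_, ?_, ?_⟩ <;> first | linarith | simp
    | k + 5 => left; simp [star]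

theorem main (K : Fin 5 → Set E) (hc : ∀ i, Convex ℝ (K i)) (hn : ∀ i, (interior (K i)).Nonempty)
    (hd : ∀ i j, i ≠ j → Disjoint (interior (K i)) (interior (K j))) :
    ∃ i, ∃ v : E, v ≠ 0 ∧ ∀ t : ℝ, 0 < t → ∀ x ∈ interior (K i), ∀ j, j ≠ i →
      x + t • v ∉ interior (K j) := by
  by_contra hno
  have h0 : ∀ i j, i ≠ j → ∃ G : Fin 4 → ℝ, (∀ x ∈ interior (K i), ap G x < 0) ∧
      ∀ x ∈ interior (K j), 0 < ap G x := fun i j h =>
    sepG (hc i).interior isOpen_interior (hc j).interior isOpen_interior (hd i j h)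
  choose! F hF1 hF2 using h0
  let G : Fin 5 → Fin 5 → Fin 4 → ℝ := fun i j => if i < j then F i j else - F j i
  have hG : ∀ i j, i ≠ j → G j i = - G i j := by
    intro i j h
    rcases lt_or_gt_of_ne h with k | k
    · simp [G, k, not_lt.2 k.le]
    · simp [G, k, not_lt.2 k.le]
  have hin : ∀ i j, j ≠ i → ∀ x ∈ interior (K i), ap (G i j) x < 0 := by
    intro i j h x hx
    rcases lt_or_gt_of_ne h with k | k
    · simp only [G, if_neg (not_lt.2 k.le), ap_neg]
      linarith [hF2 j i h x hx]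
    · simp only [G, if_pos k]
      exact hF1 i j h.symm x hx
  have hout : ∀ i j, j ≠ i → ∀ x ∈ interior (K j), 0 < ap (G i j) x := by
    intro i j h x hx
    have := hin j i h.symm x hx
    rw [hG i j h.symm, ap_neg] at this
    linarith
  have one : ∀ i j, i ≠ j → ∃ z : E, 0 < ap (G i j) z ∧
      ∀ k, k ≠ i → k ≠ j → ap (G i k) z < 0 ∧ ap (G j k) z < 0 := by
    intro i j h
    by_contra hz
    have d : ∀ i j : Fin 5, i ≠ j → ∃ k l m, k ≠ i ∧ l ≠ i ∧ m ≠ i ∧
      ∀ r, r ≠ i → r ≠ j → r = k ∨ r = l ∨ r = m := by decide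
    obtain ⟨k, l, m, -, -, -, hr⟩ := d i j h
    obtain ⟨v, hv, h1, h2, h3⟩ := dir3 (G i k) (G i l) (G i m)
    refine hno ⟨i, v, hv, fun t ht x hx r hri hy => ?_⟩
    have hA : ∀ s, s ≠ i → s ≠ j → ap (G i s) (x + t • v) < 0 := by
      intro s a b
      have := hin i s a x hx
      have h4 : lin (G i s) v ≤ 0 := by rcases hr s a b with rfl | rfl | rfl <;> assumption
      rw [ap_add]
      nlinarith
    by_cases e : r = j
    · subst e
      exact hz ⟨_, hout i r hri _ hy, fun s a b => ⟨hA s a b, hin r s b _ hy⟩⟩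
    · linarith [hA r hri e, hout i r hri _ hy]
  refine alg G hG ?_ (fun i => ?_) ?_
  · intro i v hv
    by_contra h
    refine hno ⟨i, v, h, fun t ht x hx r hri hy => ?_⟩
    have h1 := hout i r hri _ hy
    rw [ap_add] at h1
    nlinarith [hin i r hri x hx, hv r hri]
  · obtain ⟨p, hp⟩ := hn i
    exact ⟨p, fun j hj => hin i j hj p hp⟩
  · intro i j h
    obtain ⟨a, a1, a2⟩ := one i j h
    obtain ⟨b, b1, b2⟩ := one j i h.symm
    rw [hG i j h, ap_neg] at b1
    have hp : 0 < ap (G i j) a - ap (G i j) b := by linarith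
    have e : ∀ H, ap H (a + (ap (G i j) a / (ap (G i j) a - ap (G i j) b)) • (b - a))
        = (ap (G i j) a * ap H b - ap (G i j) b * ap H a) / (ap (G i j) a - ap (G i j) b) := by
      intro H
      rw [ap_add]
      have : lin H (b - a) = ap H b - ap H a := by simp [ap, lin]; ring
      rw [this]
      field_simp
      ring
    refine ⟨a + (ap (G i j) a / (ap (G i j) a - ap (G i j) b)) • (b - a), ?_,
      fun k hi hj => ⟨?_, ?_⟩⟩
    · rw [e]; simp [mul_comm]
    · rw [e]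
      apply div_neg_of_neg_of_pos _ hp
      nlinarith [(a2 k hi hj).1, (b2 k hj hi).2]
    · rw [e]
      apply div_neg_of_neg_of_pos _ hp
      nlinarith [(a2 k hi hj).2, (b2 k hj hi).1]

end Pool.Agent.H.MP_0aa80c_co
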